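import Mathlib

set_option autoImplicit false

namespace Pool.Agent.MP_7adc1e_nt.H85

open Finset

variable {L : Type} [Field L] [Fintype L] [DecidableEq L]

/-- The quadratic map attached to three field endomorphisms. -/
def Qf (F G H : L →+* L) (z : L) : L := F z * G z + F z * H z + G z * H z

/-- Fibre sizes of the quadratic map. -/
def M (F G H : L →+* L) (u : L) : ℕ := (univ.filter fun z => Qf F G H z = u).card

/-- Number of representations as a sum of two values. -/
def R (F G H : L →+* L) (w : L) : ℕ :=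
  (univ.filter fun p : L × L => Qf F G H p.1 + Qf F G H p.2 = w).card

lemma R_eq (F G H : L →+* L) (w : L) : R F G H w = ∑ u, M F G H u * M F G H (w - u) := by
  unfold R M
  rw [card_eq_sum_card_fiberwise (f := fun p : L × L => Qf F G H p.1) (t := univ) (by simp)]
  refine sum_congr rfl fun u _ => ?_
  rw [← card_product]
  congr 1
  ext p
  simp only [mem_filter, mem_univ, true_and, mem_product]
  constructor
  · rintro ⟨h1, h2⟩
    exact ⟨h2, by rw [← h1, h2]; ring⟩
  · rintro ⟨h1, h2⟩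
    exact ⟨by rw [h1, h2]; ring, h1⟩

omit [Fintype L] [DecidableEq L] in
lemma Q_rot (F G H : L →+* L) (a b : ℕ) (x y : L) :
    Qf F G H (a * x - b * y) + Qf F G H (b * x + a * y)
      = ((a : L) ^ 2 + (b : L) ^ 2) * (Qf F G H x + Qf F G H y) := by
  simp only [Qf, map_sub, map_add, map_mul, map_natCast]
  ring

lemma R_rot (F G H : L →+* L) (a b : ℕ) (h : (a : L) ^ 2 + (b : L) ^ 2 ≠ 0) (w : L) :
    R F G H w = R F G H (((a : L) ^ 2 + (b : L) ^ 2) * w) := by
  have hinj : Function.Injective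
      (fun p : L × L => (((a : L) * p.1 - b * p.2, (b : L) * p.1 + a * p.2) : L × L)) := by
    intro p q hpq
    simp only [Prod.mk.injEq] at hpq
    obtain ⟨h1, h2⟩ := hpq
    refine Prod.ext (mul_left_cancel₀ h ?_) (mul_left_cancel₀ h ?_)
    · linear_combination (a : L) * h1 + (b : L) * h2
    · linear_combination (a : L) * h2 - (b : L) * h1
  unfold R
  refine card_equiv (Equiv.ofBijective _ (Finite.injective_iff_bijective.1 hinj)) fun p => ?_
  simp only [mem_filter, mem_univ, true_and, Equiv.ofBijective_apply]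
  rw [Q_rot]
  exact ⟨fun e => by rw [e], fun e => mul_left_cancel₀ h e⟩

lemma dvd_two_mul (m : L → ℕ) (B : ℕ) (hB : 0 < B) (h3 : (3 : L) ≠ 0)
    (hm : ∀ u, u ≠ 0 → m u = 0 ∨ m u = B) (hneg : m (-1) = 0) (hthree : m 3 = B)
    (hR : ∑ u, m u * m (-1 - u) = ∑ u, m u * m (3 - u)) : B ∣ 2 * m 0 := by
  have hd : ∀ u, u ≠ 0 → B ∣ m u := fun u hu => by
    rcases hm u hu with h | h <;> simp [h]
  have h1 : B * B ∣ ∑ u, m u * m (-1 - u) := by
    refine dvd_sum fun u _ => ?_
    by_cases hu : u = 0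
    · simp [hu, hneg]
    by_cases hu' : -1 - u = 0
    · have : u = -1 := by linear_combination -hu'
      simp [this, hneg]
    exact mul_dvd_mul (hd _ hu) (hd _ hu')
  have h2 : ∑ u, m u * m (3 - u)
      = m 0 * B + (B * m 0 + ∑ u ∈ (univ.erase 0).erase 3, m u * m (3 - u)) := by
    rw [← add_sum_erase univ _ (mem_univ (0 : L)),
      ← add_sum_erase (univ.erase 0) _ (mem_erase.2 ⟨h3, mem_univ _⟩)]
    simp [hthree]
  have h4 : B * B ∣ ∑ u ∈ (univ.erase 0).erase 3, m u * m (3 - u) := by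
    refine dvd_sum fun u hu => ?_
    simp only [mem_erase] at hu
    exact mul_dvd_mul (hd _ hu.2.1) (hd _ (sub_ne_zero.2 (Ne.symm hu.1)))
  rw [hR, h2, ← add_assoc] at h1
  have h5 := (Nat.dvd_add_left h4).1 h1
  have h6 : m 0 * B + B * m 0 = B * (2 * m 0) := by ring
  rw [h6] at h5
  exact Nat.dvd_of_mul_dvd_mul_left hB h5

omit [Fintype L] [DecidableEq L] in
lemma Q_neg (F G H : L →+* L) (z : L) : Qf F G H (-z) = Qf F G H z := by
  simp [Qf]

omit [Fintype L] [DecidableEq L] in
lemma Q_zero (F G H : L →+* L) : Qf F G H 0 = 0 := by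
  simp [Qf]

lemma M_even (F G H : L →+* L) (h2 : (2 : L) ≠ 0) (u : L) (hu : u ≠ 0) : Even (M F G H u) := by
  unfold M
  have h : ∑ _z ∈ univ.filter (fun z => Qf F G H z = u), (1 : ZMod 2) = 0 := by
    refine sum_involution (fun z _ => -z) (fun _ _ => by decide) ?_ ?_ (fun _ _ => neg_neg _)
    · intro z hz _ e
      have hz0 : z = 0 := by
        apply mul_left_cancel₀ h2
        linear_combination -e
      rw [mem_filter, hz0, Q_zero] at hz
      exact hu hz.2.symm
    · intro z hz
      rw [mem_filter] at hz ⊢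
      exact ⟨mem_univ _, by rw [Q_neg]; exact hz.2⟩
  rw [sum_const, nsmul_eq_mul, mul_one] at h
  exact (ZMod.natCast_eq_zero_iff_even).1 h

lemma M_zero (F G H : L →+* L) (hker : ∀ w : L, F w + G w + H w = 0 → w = 0) :
    M F G H 0 = 1 := by
  unfold M
  rw [card_eq_one]
  refine ⟨0, ?_⟩
  ext z
  simp only [mem_filter, mem_univ, true_and, mem_singleton]
  refine ⟨fun h => ?_, fun h => by rw [h, Q_zero]⟩
  by_contra hz
  have hF : F z ≠ 0 := (map_ne_zero F).2 hz
  have hG : G z ≠ 0 := (map_ne_zero G).2 hz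
  have hH : H z ≠ 0 := (map_ne_zero H).2 hz
  refine inv_ne_zero hz (hker z⁻¹ ?_)
  rw [map_inv₀, map_inv₀, map_inv₀]
  unfold Qf at h
  field_simp
  linear_combination h

lemma M_neg_one (F G H : L →+* L) (h2 : (2 : L) ≠ 0)
    (hinj : Function.Injective fun x : L => F x * G x * H x) : M F G H (-1) = 0 := by
  unfold M
  rw [card_eq_zero, filter_eq_empty_iff]
  intro z _ h
  have h1 : 1 + z = z - 1 := by
    apply hinj
    simp only [map_add, map_sub, map_one]
    unfold Qf at h
    linear_combination 2 * h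
  apply h2
  linear_combination h1

lemma two_le_M_three (F G H : L →+* L) (h2 : (2 : L) ≠ 0) : 2 ≤ M F G H 3 := by
  unfold M
  have hne : (1 : L) ≠ -1 := fun e => h2 (by linear_combination e)
  refine (card_pair hne).symm.le.trans (card_le_card fun z hz => ?_)
  simp only [mem_insert, mem_singleton] at hz
  rw [mem_filter]
  refine ⟨mem_univ _, ?_⟩
  rcases hz with rfl | rfl <;> simp [Qf] <;> ring

/-- The number of solutions of the two equations, in terms of the quadratic map. -/
lemma card_pairs (F G H : L →+* L) (h2 : (2 : L) ≠ 0) (f : L → L)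
    (hf : ∀ x, f x = F x * G x * H x) (v : L) :
    (univ.filter fun p : L × L => p.1 + p.2 = 1 ∧ f p.1 + f p.2 = v).card
      = M F G H (4 * v - 1) := by
  have key : ∀ x : L, 4 * (f x + f (1 - x)) - 1 = Qf F G H (2 * x - 1) := fun x => by
    simp only [hf, Qf, map_sub, map_mul, map_ofNat, map_one]
    ring
  have h4 : (4 : L) ≠ 0 := by
    have : (4 : L) = 2 * 2 := by norm_num
    rw [this]; exact mul_ne_zero h2 h2
  unfold M
  refine card_bij (fun p _ => 2 * p.1 - 1) ?_ ?_ ?_
  · intro p hp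
    rw [mem_filter] at hp ⊢
    obtain ⟨-, h1, h3⟩ := hp
    have : p.2 = 1 - p.1 := by linear_combination h1
    rw [this] at h3
    exact ⟨mem_univ _, by rw [← key, h3]⟩
  · intro p hp q hq e
    rw [mem_filter] at hp hq
    have h1 : p.1 = q.1 := mul_left_cancel₀ h2 (by linear_combination e)
    exact Prod.ext h1 (by linear_combination hp.2.1 - hq.2.1 - h1)
  · intro z hz
    rw [mem_filter] at hz
    have hx : 2 * ((1 + z) / 2) - 1 = z := by field_simp; ring
    refine ⟨((1 + z) / 2, 1 - (1 + z) / 2), ?_, hx⟩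
    rw [mem_filter]
    refine ⟨mem_univ _, by ring, mul_left_cancel₀ h4 ?_⟩
    have := key ((1 + z) / 2)
    rw [hx, hz.2] at this
    linear_combination this

lemma M_three (F G H : L →+* L) (h2 : (2 : L) ≠ 0)
    (hinj : Function.Injective fun x : L => F x * G x * H x)
    (hker : ∀ w : L, F w + G w + H w = 0 → w = 0)
    (hnice : (univ.image (M F G H)).card ≤ 3) : M F G H 3 = 2 := by
  have h3 : (3 : L) ≠ 0 := fun e => one_ne_zero (hker 1 (by simp only [map_one]; linear_combination e))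
  have h0 := M_zero F G H hker
  have h1 := M_neg_one F G H h2 hinj
  have hB := two_le_M_three F G H h2
  have hsub : ({0, 1, M F G H 3} : Finset ℕ) ⊆ univ.image (M F G H) := by
    intro n hn
    simp only [mem_insert, mem_singleton] at hn
    rw [mem_image]
    rcases hn with rfl | rfl | rfl
    · exact ⟨-1, mem_univ _, h1⟩
    · exact ⟨0, mem_univ _, h0⟩
    · exact ⟨3, mem_univ _, rfl⟩
  have hcard : ({0, 1, M F G H 3} : Finset ℕ).card = 3 := by
    rw [card_eq_three]
    exact ⟨0, 1, M F G H 3, by omega, by omega, by omega, rfl⟩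
  have heq := eq_of_subset_of_card_le hsub (by omega)
  have hm : ∀ u, u ≠ 0 → M F G H u = 0 ∨ M F G H u = M F G H 3 := fun u hu => by
    have hmem : M F G H u ∈ ({0, 1, M F G H 3} : Finset ℕ) := by
      rw [heq]; exact mem_image_of_mem _ (mem_univ u)
    simp only [mem_insert, mem_singleton] at hmem
    obtain ⟨c, hc⟩ := M_even F G H h2 u hu
    omega
  have : CharP L (ringChar L) := ringChar.charP L
  obtain ⟨n, hp, -⟩ := FiniteField.card L (ringChar L)
  have : NeZero (ringChar L) := ⟨hp.ne_zero⟩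
  obtain ⟨a, b, hab⟩ := CharP.sq_add_sq L (ringChar L) (-3)
  have hab' : (a : L) ^ 2 + (b : L) ^ 2 = -3 := by rw [hab]; push_cast; ring
  have hR := R_rot F G H a b (by rw [hab']; exact neg_ne_zero.2 h3) (-1)
  rw [hab', show (-3 : L) * (-1) = 3 by ring, R_eq, R_eq] at hR
  have hd := dvd_two_mul (M F G H) (M F G H 3) (by omega) h3 hm h1 rfl hR
  rw [h0] at hd
  have := Nat.le_of_dvd (by norm_num) hd
  omega

/-- The number of solutions of `x + y = 1`, `f x + f y = v`. -/
def Nf (f : L → L) (v : L) : ℕ :=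
  (univ.filter fun p : L × L => p.1 + p.2 = 1 ∧ f p.1 + f p.2 = v).card

lemma Nf_cubic (F G H : L →+* L) (h2 : (2 : L) ≠ 0) (f : L → L)
    (hf : ∀ x, f x = F x * G x * H x) (hinj : Function.Injective f)
    (hker : ∀ w : L, F w + G w + H w = 0 → w = 0)
    (hnice : (univ.image (Nf f)).card ≤ 3) : Nf f 1 = 2 := by
  have h4 : (4 : L) ≠ 0 := by
    have : (4 : L) = 2 * 2 := by norm_num
    rw [this]; exact mul_ne_zero h2 h2
  have hN : ∀ v, Nf f v = M F G H (4 * v - 1) := card_pairs F G H h2 f hf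
  rw [hN, show (4 : L) * 1 - 1 = 3 by ring]
  refine M_three F G H h2 (fun x y e => hinj (by rw [hf, hf]; exact e)) hker
    ((card_le_card fun n hn => ?_).trans hnice)
  obtain ⟨u, -, rfl⟩ := mem_image.1 hn
  refine mem_image.2 ⟨(u + 1) / 4, mem_univ _, ?_⟩
  rw [hN]
  congr 1
  field_simp
  ring

lemma Nf_inv (f g : L → L) (hfg : ∀ x, f (g x) = x) (hgf : ∀ x, g (f x) = x)
    (hmul : ∀ x y, f (x * y) = f x * f y) (h0 : f 0 = 0) (v : L) (hv : v ≠ 0) :
    Nf f (f v)⁻¹ = Nf g v := by
  have hfv : f v ≠ 0 := fun e => hv (by rw [← hgf v, e, ← h0, hgf, h0])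
  unfold Nf
  refine card_bij (fun p _ => (f (v * p.1), f (v * p.2))) ?_ ?_ ?_
  · intro p hp
    rw [mem_filter] at hp ⊢
    refine ⟨mem_univ _, ?_, ?_⟩
    · rw [hmul, hmul, ← mul_add, hp.2.2, mul_inv_cancel₀ hfv]
    · rw [hgf, hgf, ← mul_add, hp.2.1, mul_one]
  · intro p _ q _ e
    simp only [Prod.mk.injEq] at e
    have h1 := congrArg g e.1
    have h2 := congrArg g e.2
    rw [hgf, hgf] at h1 h2
    exact Prod.ext (mul_left_cancel₀ hv h1) (mul_left_cancel₀ hv h2)
  · intro p hp
    rw [mem_filter] at hp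
    have e : ∀ x, f (v * (g x / v)) = x := fun x => by rw [mul_div_cancel₀ _ hv, hfg]
    refine ⟨(g p.1 / v, g p.2 / v), ?_, Prod.ext (e _) (e _)⟩
    rw [mem_filter]
    refine ⟨mem_univ _, by rw [← add_div, hp.2.2, div_self hv], mul_left_cancel₀ hfv ?_⟩
    rw [mul_add, ← hmul, ← hmul, e, e, hp.2.1, mul_inv_cancel₀ hfv]

lemma Nf_zero (f : L → L) (hinj : Function.Injective f) (hneg : ∀ x, f (-x) = -f x) :
    Nf f 0 = 0 := by
  unfold Nf
  rw [card_eq_zero, filter_eq_empty_iff]
  rintro p - ⟨h1, h2⟩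
  have : p.1 = -p.2 := hinj (by rw [hneg]; linear_combination h2)
  exact one_ne_zero (α := L) (by linear_combination this - h1)

lemma Nf_cubic_inv (F G H : L →+* L) (h2 : (2 : L) ≠ 0) (g : L → L)
    (hfg : ∀ x, F (g x) * G (g x) * H (g x) = x) (hginj : Function.Injective g)
    (hker : ∀ w : L, F w + G w + H w = 0 → w = 0)
    (hnice : (univ.image (Nf g)).card ≤ 3) : Nf g 1 = 2 := by
  set f : L → L := fun x => F x * G x * H x with hf
  have hgsurj := Finite.injective_iff_surjective.1 hginj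
  have hgf : ∀ x, g (f x) = x := fun x => by
    obtain ⟨y, rfl⟩ := hgsurj x
    exact congrArg g (hfg y)
  have hfinj : Function.Injective f := fun x y e => by rw [← hgf x, e, hgf]
  have hmul : ∀ x y, f (x * y) = f x * f y := fun x y => by
    simp only [hf, map_mul]; ring
  have hneg : ∀ x, f (-x) = -f x := fun x => by
    simp only [hf, map_neg]; ring
  have h0 : f 0 = 0 := by simp [hf]
  have h1 : f 1 = 1 := by simp [hf]
  have hgneg : ∀ x, g (-x) = -g x := fun x => hfinj (by
    rw [hneg]; exact (hfg _).trans (congrArg _ (hfg _).symm))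
  have hinv := Nf_inv f g hfg hgf hmul h0
  have e1 := hinv 1 one_ne_zero
  rw [h1, inv_one] at e1
  rw [← e1]
  refine Nf_cubic F G H h2 f (fun _ => rfl) hfinj hker
    ((card_le_card fun n hn => ?_).trans hnice)
  obtain ⟨w, -, rfl⟩ := mem_image.1 hn
  by_cases hw : w = 0
  · exact mem_image.2 ⟨0, mem_univ _, by
      rw [hw, Nf_zero f hfinj hneg, Nf_zero g hginj hgneg]⟩
  · have hgw : g w⁻¹ ≠ 0 := fun e => inv_ne_zero hw (by
      have := hfg w⁻¹
      rw [e] at this
      simpa using this.symm)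
    refine mem_image.2 ⟨g w⁻¹, mem_univ _, ?_⟩
    rw [← hinv _ hgw]
    congr 1
    have : f (g w⁻¹) = w⁻¹ := hfg _
    rw [this, inv_inv]

omit [DecidableEq L] in
lemma pow_congr {a b : ℕ} (ha : a ≠ 0) (hb : b ≠ 0) (h : a ≡ b [MOD Fintype.card L - 1]) (x : L) :
    x ^ a = x ^ b := by
  by_cases hx : x = 0
  · rw [hx, zero_pow ha, zero_pow hb]
  · have h1 := FiniteField.pow_card_sub_one_eq_one x hx
    rw [← Nat.mod_add_div a (Fintype.card L - 1), ← Nat.mod_add_div b (Fintype.card L - 1),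
      pow_add, pow_add, pow_mul, pow_mul, h1, one_pow, one_pow, h]

omit [DecidableEq L] in
lemma pow_injective {s : ℕ} (hs0 : s ≠ 0) (hs : Nat.Coprime s (Fintype.card L - 1)) :
    Function.Injective fun x : L => x ^ s := by
  intro x y e
  simp only at e
  by_cases hy : y = 0
  · rw [hy, zero_pow hs0] at e
    rw [hy]; exact pow_eq_zero_iff hs0 |>.1 e
  have hx : x ≠ 0 := fun h => pow_ne_zero s hy (by rw [← e, h, zero_pow hs0])
  have h1 : (x / y) ^ s = 1 := by rw [div_pow, e, div_self (pow_ne_zero s hy)]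
  have h2 := FiniteField.pow_card_sub_one_eq_one (x / y) (div_ne_zero hx hy)
  have h3 := pow_gcd_eq_one.2 ⟨h1, h2⟩
  rw [hs.gcd_eq_one, pow_one] at h3
  exact (div_eq_one_iff_eq hy).1 h3

end Pool.Agent.MP_7adc1e_nt.H85
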